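import Pool.Agent.W443.DX.All
import Pool.Agent.TH61.DX.Star
import Pool.Agent.H88R2.DC.Final

/-! The transfer theorem for the image of an arbitrary pair with commutator one. -/

set_option autoImplicit false

open MvPolynomial Pool.Agent.H88R2.DC Pool.Agent.W443.DX

namespace Pool.Agent.Y83.DC

variable {K : Type} [Field K] [CharZero K]

theorem bij_of_comp (φ ψ : A1 K →ₐ[K] A1 K) (h : Function.Bijective (φ.comp ψ)) :
    Function.Bijective φ := by
  refine ⟨hom_injective (isWeyl_A1 K) φ, ?_⟩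
  intro z
  obtain ⟨w, hw⟩ := h.2 z
  exact ⟨ψ w, hw⟩

theorem sym_ne (φ : A1 K →ₐ[K] A1 K) (a b : A1 K) (hab : a * b - b * a = 1)
    (F G : MvPolynomial (Fin 2) K) (hF : φ a = elt K F) (hG : φ b = elt K G) : F ≠ 0 ∧ G ≠ 0 := by
  obtain ⟨ψ, hx, hy⟩ := Pool.Agent.TH61.DX.ex_lift (K := K) a b hab
  exact ne_zero K (φ.comp ψ) F G (by rw [AlgHom.comp_apply, hx, hF])
    (by rw [AlgHom.comp_apply, hy, hG])

/-- the transfer theorem for the image of an arbitrary pair with commutator one -/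
theorem transfer' (T : (Fin 2 → ℕ) → (Fin 2 → ℕ) → (Fin 2 → ℕ) → (Fin 2 → ℕ) → Prop)
    (hT : JCon T) (φ : A1 K →ₐ[K] A1 K) (a b : A1 K) (hab : a * b - b * a = 1)
    (F G : MvPolynomial (Fin 2) K) (hF : φ a = elt K F) (hG : φ b = elt K G)
    (B C B' C' : Fin 2 → ℕ) (hFL : ∀ i, LM i F (B i) (C i)) (hGL : ∀ i, LM i G (B' i) (C' i))
    (h : T B C B' C') : Function.Bijective φ := by
  obtain ⟨ψ, hx, hy⟩ := Pool.Agent.TH61.DX.ex_lift (K := K) a b hab
  refine bij_of_comp φ ψ (transfer T hT K (φ.comp ψ) F G ?_ ?_ B C B' C' hFL hGL h)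
  · rw [AlgHom.comp_apply, hx, hF]
  · rw [AlgHom.comp_apply, hy, hG]

/-- the transfer theorem with the leading monomials existentially quantified -/
theorem transfer_all (T : (Fin 2 → ℕ) → (Fin 2 → ℕ) → (Fin 2 → ℕ) → (Fin 2 → ℕ) → Prop)
    (hT : JCon T) (φ : A1 K →ₐ[K] A1 K) (a b : A1 K) (hab : a * b - b * a = 1)
    (F G : MvPolynomial (Fin 2) K) (hF : φ a = elt K F) (hG : φ b = elt K G)
    (h : ∀ B C B' C' : Fin 2 → ℕ, (∀ i, LM i F (B i) (C i)) → (∀ i, LM i G (B' i) (C' i)) →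
      T B C B' C') : Function.Bijective φ := by
  obtain ⟨hF0, hG0⟩ := sym_ne φ a b hab F G hF hG
  have h1 : ∀ i, ∃ B C, LM i F B C := fun i => (hLME K i F).1 hF0
  have h2 : ∀ i, ∃ B C, LM i G B C := fun i => (hLME K i G).1 hG0
  choose B C hBC using h1
  choose B' C' hBC' using h2
  exact transfer' T hT φ a b hab F G hF hG B C B' C' hBC hBC' (h B C B' C' hBC hBC')

end Pool.Agent.Y83.DC
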