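import Pool.Agent.Y83.DC.FinS
import Pool.Agent.Results.MP_e9297c_ag.DegreeRatio

/-! Plane Jacobian theorems for the degrees in one variable and for the total degrees, in the form
needed for the transfer. -/

set_option autoImplicit false

open MvPolynomial Pool.Agent.W443.DX

namespace Pool.Agent.Y83.DC

/-- the weight of a variable -/
def wv (i : Fin 2) : Fin 2 → ℤ := fun j => if j = i then 1 else 0

/-- the weights of total degree -/
def w11 : Fin 2 → ℤ := fun _ => 1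

theorem wv_pos (i : Fin 2) : 0 < wv i 0 + wv i 1 := by
  fin_cases i <;> simp [wv]

theorem w11_pos : 0 < w11 0 + w11 1 := by simp [w11]

theorem wt_wv (i : Fin 2) (m : Fin 2 →₀ ℕ) : wt (wv i) m = m i := by
  unfold wt wv
  fin_cases i <;> simp

theorem wt_w11 (m : Fin 2 →₀ ℕ) : wt w11 m = m 0 + m 1 := by
  unfold wt w11
  ring

theorem topS_deg {R : Type} [CommRing R] (i : Fin 2) {f : MvPolynomial (Fin 2) R} (hf : f ≠ 0) :
    TopS (wv i) (degreeOf i f) f.support := by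
  have h1 : f.support.Nonempty := by
    rw [Finset.nonempty_iff_ne_empty, Ne, support_eq_empty]; exact hf
  obtain ⟨m, h2, h3⟩ := Finset.exists_mem_eq_sup f.support h1 (fun m => m i)
  refine ⟨⟨m, h2, ?_⟩, fun n hn => ?_⟩
  · rw [wt_wv, degreeOf_eq_sup, h3]
  · rw [wt_wv]
    exact_mod_cast monomial_le_degreeOf i hn

theorem topS_tot {R : Type} [CommRing R] {f : MvPolynomial (Fin 2) R} (hf : f ≠ 0) :
    TopS w11 f.totalDegree f.support := by
  have hsum : ∀ m : Fin 2 →₀ ℕ, (m.sum fun _ e => e) = m 0 + m 1 := by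
    intro m
    rw [Finsupp.sum_fintype _ _ (fun i => rfl), Fin.sum_univ_two]
  have h1 : f.support.Nonempty := by
    rw [Finset.nonempty_iff_ne_empty, Ne, support_eq_empty]; exact hf
  obtain ⟨m, h2, h3⟩ := Finset.exists_mem_eq_sup f.support h1 (fun m => m.sum (fun _ e => e))
  refine ⟨⟨m, h2, ?_⟩, fun n hn => ?_⟩
  · rw [wt_w11]
    have h4 : f.totalDegree = m 0 + m 1 := by
      rw [← hsum]
      unfold totalDegree
      rw [h3]
    rw [h4]; push_cast; ring
  · rw [wt_w11]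
    have h5 := le_totalDegree hn
    rw [hsum] at h5
    exact_mod_cast h5

theorem nz_of_jac {k : Type} [Field k] {f g : MvPolynomial (Fin 2) k} (h : Jac f g = 1) :
    f ≠ 0 ∧ g ≠ 0 := by
  constructor
  · rintro rfl
    unfold Jac at h
    simp at h
  · rintro rfl
    unfold Jac at h
    simp at h

/-! ### total degrees -/

/-- the condition on the degrees -/
def RT (m n : ℕ) : Prop :=
  m < n ∧ ¬ m ∣ n ∧ (m : ℝ) * ((Nat.gcd m n : ℝ) - 3 - √(4 * (Nat.gcd m n : ℝ) - 7)) < n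

/-- the condition on the supports -/
def T4 (S S' : Finset (Fin 2 →₀ ℕ)) : Prop :=
  ∃ m n : ℕ, TopS w11 m S ∧ TopS w11 n S' ∧ (RT m n ∨ RT n m)

theorem inv4 (S S' S₁ S₁' : Finset (Fin 2 →₀ ℕ)) (h : Same S S₁) (h' : Same S' S₁')
    (hT : T4 S S') : T4 S₁ S₁' := by
  obtain ⟨m, n, h1, h2, h3⟩ := hT
  exact ⟨m, n, (h w11 w11_pos _).1 h1, (h' w11 w11_pos _).1 h2, h3⟩

theorem jc4 : JConS T4 := by
  intro k _ _ f g hJ hT
  obtain ⟨hf, hg⟩ := nz_of_jac hJ
  obtain ⟨m, n, h1, h2, h3⟩ := hT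
  have e1 : m = f.totalDegree := by exact_mod_cast h1.uniq (topS_tot hf)
  have e2 : n = g.totalDegree := by exact_mod_cast h2.uniq (topS_tot hg)
  apply Pool.Agent.W443.DX.inv_of
  rcases h3 with ⟨a1, a2, a3⟩ | ⟨a1, a2, a3⟩
  · rw [e1, e2] at a1 a2 a3
    exact Pool.Agent.Results.MP_e9297c_ag.DegreeRatio.result ![f, g] (det_of f g hJ) 0 1 a1 a2 a3
  · rw [e1, e2] at a1 a2 a3
    exact Pool.Agent.Results.MP_e9297c_ag.DegreeRatio.result ![f, g] (det_of f g hJ) 1 0 a1 a2 a3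

/-! ### degrees in one variable -/

/-- the condition on the degrees -/
def RP (m n : ℕ) : Prop := ¬ m ∣ n ∧ m * (Nat.gcd m n * (Nat.gcd m n - 3)) < n

/-- the condition on the supports -/
def T5 (S S' : Finset (Fin 2 →₀ ℕ)) : Prop :=
  ∃ (i : Fin 2) (m n : ℕ), TopS (wv i) m S ∧ TopS (wv i) n S' ∧ (RP m n ∨ RP n m)

theorem inv5 (S S' S₁ S₁' : Finset (Fin 2 →₀ ℕ)) (h : Same S S₁) (h' : Same S' S₁')
    (hT : T5 S S') : T5 S₁ S₁' := by
  obtain ⟨i, m, n, h1, h2, h3⟩ := hT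
  exact ⟨i, m, n, (h (wv i) (wv_pos i) _).1 h1, (h' (wv i) (wv_pos i) _).1 h2, h3⟩

section
open Pool.Agent.TH207 Pool.Agent.W443.J6
open Pool.Agent.H938R2.JC hiding dh

/-- no bad pairs over algebraically closed fields -/
theorem no_bad {k : Type} [Field k] [CharZero k] [IsAlgClosed k] {f g : MvPolynomial (Fin 2) k}
    (hbad : Bad f g) {m n : ℕ} (hf : Top 1 0 (m : ℤ) f) (hg : Top 1 0 (n : ℤ) g)
    (h : RP m n) (h4 : 4 ≤ Nat.gcd m n) : False := by
  obtain ⟨h1, h2⟩ := h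
  have hm0 : 0 < m := by
    have := Pool.Agent.W216.J6.Bad.pos hbad 1 0 _ (Or.inl one_pos) hf
    exact_mod_cast this
  obtain ⟨p, a, b, hp, hcop, e1, e2⟩ := Nat.exists_coprime' (m := m) (n := n)
    (Nat.gcd_pos_of_pos_left _ hm0)
  have hgcd : Nat.gcd m n = p := by
    rw [e1, e2, Nat.gcd_mul_right, hcop, one_mul]
  have ha1 : a ≠ 1 := by
    intro h
    apply h1
    rw [e1, e2, h, one_mul]
    exact dvd_mul_left _ _
  have ha0 : a ≠ 0 := by
    rintro rfl
    omega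
  rw [hgcd] at h4
  rw [hgcd, e1, e2] at h2
  have hab : a * (p * (p - 3)) < b := by
    have h5 : p * (a * (p * (p - 3))) < p * b := by
      calc p * (a * (p * (p - 3))) = a * p * (p * (p - 3)) := by ring
        _ < b * p := h2
        _ = p * b := by ring
    exact Nat.lt_of_mul_lt_mul_left h5
  have hb2 : 2 ≤ b := by
    have h5 : 1 ≤ a * (p * (p - 3)) := Nat.mul_pos (by omega) (Nat.mul_pos (by omega) (by omega))
    omega
  have c1 : (m : ℤ) = a * p := by rw [e1]; push_cast; ring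
  have c2 : (n : ℤ) = b * p := by rw [e2]; push_cast; ring
  rw [c1] at hf
  rw [c2] at hg
  obtain ⟨s1, s2⟩ := Asm.sim k f g hbad a b (by omega) (by omega) hcop 1 0 p (Or.inl one_pos)
    hf hg
  have h6 := part_bound (by omega) hb2 hcop p f g (by omega) hbad s1 s2 hf
  have h7 : ((a * (p * (p - 3)) : ℕ) : ℤ) < b := by exact_mod_cast hab
  rw [Nat.cast_mul, Nat.cast_mul, Nat.cast_sub (by omega)] at h7
  push_cast at h7
  have h8 : (a : ℤ) * ((p : ℤ) ^ 2 - 3 * p + 1) = a * (p * (p - 3)) + a := by ring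
  rw [h8] at h6
  linarith

theorem top_of_topS {k : Type} [Field k] (i : Fin 2) {f : MvPolynomial (Fin 2) k} {m : ℕ}
    (h : TopS (wv i) m f.support) (hi : i = 0) : Top 1 0 (m : ℤ) f := by
  subst hi
  obtain ⟨⟨a, ha, hm⟩, h2⟩ := h
  rw [wt_wv] at hm
  refine ⟨fun c hc => ?_, a, mem_support_iff.1 ha, by rw [← hm]; ring⟩
  have := h2 c (mem_support_iff.2 hc)
  rw [wt_wv] at this
  linarith

theorem top_of_topS' {k : Type} [Field k] (i : Fin 2) {f : MvPolynomial (Fin 2) k} {m : ℕ}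
    (h : TopS (wv i) m f.support) (hi : i = 1) : Top 0 1 (m : ℤ) f := by
  subst hi
  obtain ⟨⟨a, ha, hm⟩, h2⟩ := h
  rw [wt_wv] at hm
  refine ⟨fun c hc => ?_, a, mem_support_iff.1 ha, by rw [← hm]; ring⟩
  have := h2 c (mem_support_iff.2 hc)
  rw [wt_wv] at this
  linarith

theorem top_map {k : Type} [Field k] {w0 w1 d : ℤ} {f : MvPolynomial (Fin 2) k}
    (h : Top w0 w1 d f) :
    Top w0 w1 d (MvPolynomial.map (algebraMap k (AlgebraicClosure k)) f) := by
  have hs : ∀ m, coeff m (MvPolynomial.map (algebraMap k (AlgebraicClosure k)) f) ≠ 0 ↔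
      coeff m f ≠ 0 := by
    intro m
    rw [coeff_map]
    exact (map_ne_zero _)
  obtain ⟨h1, m, h2, h3⟩ := h
  exact ⟨fun m hm => h1 m ((hs m).1 hm), m, (hs m).2 h2, h3⟩

/-- no bad pairs -/
theorem no_bad' {k : Type} [Field k] [CharZero k] {f g : MvPolynomial (Fin 2) k}
    (hbad : Bad f g) {m n : ℕ} (i : Fin 2) (hf : TopS (wv i) m f.support)
    (hg : TopS (wv i) n g.support) (h : RP m n) (h4 : 4 ≤ Nat.gcd m n) : False := by
  by_cases hi : i = 0
  · exact no_bad (bad_map hbad) (top_map (top_of_topS i hf hi)) (top_map (top_of_topS i hg hi)) h h4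
  · have hi1 : i = 1 := (Fin.eq_one_of_ne_zero i hi)
    have t1 : Top 1 0 (m : ℤ) (sw f) := top_sw (top_of_topS' i hf hi1)
    have t2 : Top 1 0 (n : ℤ) (sw g) := top_sw (top_of_topS' i hg hi1)
    exact no_bad (bad_map (bad_sw hbad)) (top_map t1) (top_map t2) h h4

theorem jc5 : JConS T5 := by
  intro k _ _ f g hJ hT
  obtain ⟨hf, hg⟩ := nz_of_jac hJ
  obtain ⟨i, m, n, h1, h2, h3⟩ := hT
  have e1 : m = degreeOf i f := by exact_mod_cast h1.uniq (topS_deg i hf)
  have e2 : n = degreeOf i g := by exact_mod_cast h2.uniq (topS_deg i hg)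
  apply Pool.Agent.W443.DX.inv_of
  by_cases h4 : Nat.gcd m n ≤ 3
  · refine Pool.Agent.Results.MP_e9297c_ag.PartialDegreeGcd.result ![f, g] (det_of f g hJ)
      ⟨i, Or.inl ?_⟩
    rw [e1, e2] at h4
    exact h4
  · push Not at h4
    refine Pool.Agent.TH207.inv_of (det_of f g hJ) ?_
    intro b1 b2
    rcases h3 with h3 | h3
    · exact no_bad' (f := f) (g := g) b1 i h1 h2 h3 h4
    · exact no_bad' (f := g) (g := f) b2 i h2 h1 h3 (by rw [Nat.gcd_comm]; exact h4)

end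

end Pool.Agent.Y83.DC
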