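import Pool.Agent.Y83.DC.Sup
import Pool.Agent.Y83.DC.Tr

/-! The transfer theorem for classes given by the upper right Newton polygons. -/

set_option autoImplicit false

open MvPolynomial Pool.Agent.W443.DX

namespace Pool.Agent.Y83.DC

theorem nf_ne_zero {R : Type} [CommRing R] [Nontrivial R] (F G : MvPolynomial (Fin 2) R)
    (h : nf R F * nf R G - nf R G * nf R F = 1) : F ≠ 0 ∧ G ≠ 0 := by
  have h1 : (1 : W R) ≠ 0 := by
    intro h
    have h2 : nf R 1 = nf R 0 := by rw [nf_one, h, map_zero]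
    exact one_ne_zero ((nf R).injective h2)
  constructor
  · rintro rfl
    rw [map_zero, zero_mul, mul_zero, sub_zero] at h
    exact h1 h.symm
  · rintro rfl
    rw [map_zero, zero_mul, mul_zero, sub_zero] at h
    exact h1 h.symm

theorem deg_le (p : ℕ) [Fact p.Prime] (F f : MvPolynomial (Fin 2) (ZMod p)) (hF0 : F ≠ 0)
    (hf : nf (ZMod p) F ^ p = nf (ZMod p) (expand p f)) (i : Fin 2) :
    degreeOf i f = degreeOf i F := by
  obtain ⟨B, C, hBC⟩ := (hLME (ZMod p) i F).1 hF0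
  have h1 := (hDEG p (ZMod p) i F f _ _ hf).1 hBC
  rw [← ((hLME (ZMod p) i f).2 _ _ h1).1, ((hLME (ZMod p) i F).2 _ _ hBC).1]

/-- the part modulo `p` -/
theorem modpS (T : Finset (Fin 2 →₀ ℕ) → Finset (Fin 2 →₀ ℕ) → Prop)
    (hinv : ∀ S S' S₁ S₁', Same S S₁ → Same S' S₁' → T S S' → T S₁ S₁') (d D : ℕ)
    (hD : ∀ p : ℕ, D ≤ p → ∀ [Fact p.Prime]
      (f g : MvPolynomial (Fin 2) (ZMod p)),
      (∀ i, degreeOf i f ≤ d) → (∀ i, degreeOf i g ≤ d) →
      Jac f g = 1 → T f.support g.support →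
      ∃ G₁ G₂, Inv f g G₁ G₂ ∧ (∀ i, degreeOf i G₁ ≤ D) ∧ (∀ i, degreeOf i G₂ ≤ D))
    (p : ℕ) (hp : D ≤ p) [Fact p.Prime] (P Q : W (ZMod (p ^ 2))) (hrel : P * Q - Q * P = 1)
    (F G : MvPolynomial (Fin 2) (ZMod p))
    (hF : mapW (ZMod.castHom (Dvd.intro_left p (by ring : p * p = p ^ 2)) (ZMod p)) P
      = nf (ZMod p) F)
    (hG : mapW (ZMod.castHom (Dvd.intro_left p (by ring : p * p = p ^ 2)) (ZMod p)) Q
      = nf (ZMod p) G)
    (hFd : ∀ i, degreeOf i F ≤ d) (hGd : ∀ i, degreeOf i G ≤ d)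
    (hT : T F.support G.support) (j : Fin 2) :
    ∃ H : MvPolynomial (Fin 2) (ZMod p), ev (nf (ZMod p) F) (nf (ZMod p) G) H
      = nf (ZMod p) (X j) ∧ ∀ i, degreeOf i H ≤ D := by
  set c := ZMod.castHom (Dvd.intro_left p (by ring : p * p = p ^ 2)) (ZMod p) with hc
  have hrel' : nf (ZMod p) F * nf (ZMod p) G - nf (ZMod p) G * nf (ZMod p) F = 1 := by
    rw [← hF, ← hG, ← map_mul, ← map_mul, ← map_sub, hrel, map_one]
  have hp0 : ((p : ℕ) : W (ZMod p)) = 0 := by
    have : ((p : ℕ) : W (ZMod p)) = algebraMap (ZMod p) (W (ZMod p)) (p : ZMod p) := by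
      rw [map_natCast]
    rw [this, CharP.cast_eq_zero, map_zero]
  obtain ⟨hF0, hG0⟩ := nf_ne_zero F G hrel'
  obtain ⟨h1, h2⟩ := hPOW p (W (ZMod p)) _ _ hp0 hrel'
  obtain ⟨f, hf⟩ := hCZR p (ZMod p) (nf (ZMod p) F) (nf (ZMod p) G) (nf (ZMod p) F ^ p) hrel'
    (Commute.self_pow _ _).eq h1.symm
  obtain ⟨g, hg⟩ := hCZR p (ZMod p) (nf (ZMod p) F) (nf (ZMod p) G) (nf (ZMod p) G ^ p) hrel'
    h2 (Commute.self_pow _ _).eq
  have hJ : Jac f g = 1 := by
    refine hJAC p P Q hrel f g ?_ ?_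
    · rw [← hc, hF, hf]
    · rw [← hc, hG, hg]
  have hfd : ∀ i, degreeOf i f ≤ d := fun i => by
    rw [deg_le p F f hF0 hf i]; exact hFd i
  have hgd : ∀ i, degreeOf i g ≤ d := fun i => by
    rw [deg_le p G g hG0 hg i]; exact hGd i
  have hT' := hinv _ _ _ _ (same_of_pow p (ZMod p) F f hF0 hf) (same_of_pow p (ZMod p) G g hG0 hg)
    hT
  obtain ⟨G₁, G₂, hI, hd1, hd2⟩ := hD p hp f g hfd hgd hJ hT'
  obtain ⟨⟨H1, e1, b1⟩, ⟨H2, e2, b2⟩⟩ := hBND p (ZMod p) _ _ f g G₁ G₂ hrel' hf hg hI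
  fin_cases j
  · exact ⟨H1, e1, fun i => by rw [b1]; exact hd1 i⟩
  · exact ⟨H2, e2, fun i => by rw [b2]; exact hd2 i⟩

theorem finS (T : Finset (Fin 2 →₀ ℕ) → Finset (Fin 2 →₀ ℕ) → Prop)
    (hinv : ∀ S S' S₁ S₁', Same S S₁ → Same S' S₁' → T S S' → T S₁ S₁') (hT : JConS T)
    (K : Type) [Field K] [CharZero K] (F G : MvPolynomial (Fin 2) K)
    (hrel : nf K F * nf K G - nf K G * nf K F = 1) (hTB : T F.support G.support) :
    (∃ H : MvPolynomial (Fin 2) K, ev (nf K F) (nf K G) H = wx K) ∧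
    (∃ H : MvPolynomial (Fin 2) K, ev (nf K F) (nf K G) H = wy K) := by
  classical
  set d : ℕ := degreeOf 0 F + degreeOf 1 F + degreeOf 0 G + degreeOf 1 G with hd
  obtain ⟨D, hD⟩ := ultS T hT d
  set P := nf K F with hP
  set Q := nf K G with hQ
  -- it is enough to reach both generators
  suffices key : ∀ j : Fin 2, ∃ H : MvPolynomial (Fin 2) K, ev P Q H = nf K (X j) from
    ⟨key 0, key 1⟩
  intro j
  by_contra hno
  set V : Submodule K (W K) := Submodule.span K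
    {w | ∃ a b : ℕ, a ≤ D ∧ b ≤ D ∧ w = P ^ a * Q ^ b} with hV
  have hjV : nf K (X j) ∉ V := by
    intro hmem
    apply hno
    have : V ≤ LinearMap.range (ev (R := K) P Q) := by
      rw [hV, Submodule.span_le]
      rintro _ ⟨a, b, _, _, rfl⟩
      refine ⟨monomial (Finsupp.single 0 a + Finsupp.single 1 b) 1, ?_⟩
      rw [ev_monomial, one_smul]
      simp
    obtain ⟨H, hH⟩ := this hmem
    exact ⟨H, hH⟩
  obtain ⟨lam, hlam1, hlam2⟩ := Submodule.exists_le_ker_of_notMem hjV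
  have hlam0 : ∀ a ≤ D, ∀ b ≤ D, lam (P ^ a * Q ^ b) = 0 := fun a ha b hb =>
    LinearMap.mem_ker.1 (hlam2 (Submodule.subset_span ⟨a, b, ha, hb, rfl⟩))
  set lm : (Fin 2 →₀ ℕ) → K := fun m => lam (nf K (monomial m 1)) with hlm
  -- the finite set of monomials
  set M : Finset (Fin 2 →₀ ℕ) := insert (Finsupp.single j 1)
    ((Finset.range (D + 1) ×ˢ Finset.range (D + 1)).biUnion fun ab =>
      ((nf K).symm (P ^ ab.1 * Q ^ ab.2)).support) with hM
  have hMsub : ∀ a ≤ D, ∀ b ≤ D, ((nf K).symm (P ^ a * Q ^ b)).support ⊆ M := by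
    intro a ha b hb m hm
    rw [hM]
    refine Finset.mem_insert_of_mem (Finset.mem_biUnion.2 ⟨(a, b), ?_, hm⟩)
    rw [Finset.mem_product, Finset.mem_range, Finset.mem_range]
    exact ⟨Nat.lt_succ_of_le ha, Nat.lt_succ_of_le hb⟩
  have hlamM : ∀ w : W K, ((nf K).symm w).support ⊆ M → lam w = ∑ m ∈ M, cf m w * lm m := by
    intro w hw
    obtain ⟨E, rfl⟩ := (nf K).surjective w
    rw [LinearEquiv.symm_apply_apply] at hw
    have e : nf K E = ∑ m ∈ M, (coeff m E) • nf K (monomial m 1) := by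
      conv_lhs => rw [E.as_sum, map_sum]
      refine Finset.sum_subset_zero_on_sdiff hw ?_ ?_
      · intro m hm
        rw [Finset.mem_sdiff, mem_support_iff, not_not] at hm
        rw [hm.2, zero_smul]
      · intro m _
        rw [← map_smul, smul_monomial, smul_eq_mul, mul_one]
    conv_lhs => rw [e, map_sum]
    refine Finset.sum_congr rfl fun m _ => ?_
    rw [map_smul, cf_nf, smul_eq_mul]
  -- the finite set of numbers
  set S : Finset K := (F.support.image fun m => coeff m F) ∪ (G.support.image fun m => coeff m G) ∪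
    M.image lm with hS
  obtain ⟨p, hDp, hp, C₀, σ, hσ⟩ := Pool.Agent.W443.DX.hSPC K S D
  have : Fact p.Prime := ⟨hp⟩
  set c := ZMod.castHom (Dvd.intro_left p (by ring : p * p = p ^ 2)) (ZMod p) with hc
  have hFS : ∀ m ∈ F.support, coeff m F ∈ S := fun m hm => by
    rw [hS]
    exact Finset.mem_union_left _ (Finset.mem_union_left _ (Finset.mem_image_of_mem _ hm))
  have hGS : ∀ m ∈ G.support, coeff m G ∈ S := fun m hm => by
    rw [hS]
    exact Finset.mem_union_left _ (Finset.mem_union_right _ (Finset.mem_image_of_mem _ hm))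
  have hlS : ∀ m ∈ M, lm m ∈ S := fun m hm => by
    rw [hS]
    exact Finset.mem_union_right _ (Finset.mem_image_of_mem _ hm)
  have hmemC : ∀ s ∈ S, s ∈ C₀ := fun s hs => (hσ s hs).1
  obtain ⟨F₀, hF₀⟩ := exists_lift C₀ F fun m hm => hmemC _ (hFS m hm)
  obtain ⟨G₀, hG₀⟩ := exists_lift C₀ G fun m hm => hmemC _ (hGS m hm)
  have hinj : Function.Injective C₀.subtype := Subtype.val_injective
  -- nonzero elements of S stay nonzero
  have hnz : ∀ x : C₀, (x : K) ∈ S → (x : K) ≠ 0 → c (σ x) ≠ 0 := by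
    intro x hx hx0 h0
    obtain ⟨h1, h2⟩ := hσ _ hx
    have h3 : IsUnit (c (σ x)) := (h2 hx0).map c
    exact h3.ne_zero h0
  have hsup : ∀ (E : MvPolynomial (Fin 2) K) (E₀ : MvPolynomial (Fin 2) C₀),
      MvPolynomial.map C₀.subtype E₀ = E → (∀ m ∈ E.support, coeff m E ∈ S) →
      ∀ m, coeff m E ≠ 0 ↔ coeff m (MvPolynomial.map c (MvPolynomial.map σ E₀)) ≠ 0 := by
    intro E E₀ hE hES m
    have e1 : coeff m E = (coeff m E₀ : C₀) := by rw [← hE, coeff_map]; rfl
    rw [coeff_map, coeff_map]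
    constructor
    · intro h
      refine hnz _ ?_ ?_
      · rw [← e1]; exact hES m (mem_support_iff.2 h)
      · rw [← e1]; exact h
    · intro h h0
      apply h
      have : coeff m E₀ = 0 := by
        apply Subtype.ext
        rw [← e1, h0]; rfl
      rw [this, map_zero, map_zero]
  set F₁ := MvPolynomial.map c (MvPolynomial.map σ F₀) with hF₁
  set G₁ := MvPolynomial.map c (MvPolynomial.map σ G₀) with hG₁
  have hsF := hsup F F₀ hF₀ hFS
  have hsG := hsup G G₀ hG₀ hGS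
  have hrel₀ : nf C₀ F₀ * nf C₀ G₀ - nf C₀ G₀ * nf C₀ F₀ = 1 := by
    apply mapW_injective C₀.subtype hinj
    rw [map_sub, map_mul, map_mul, mapW_nf, mapW_nf, hF₀, hG₀, map_one]
    exact hrel
  have hrel₁ : mapW σ (nf C₀ F₀) * mapW σ (nf C₀ G₀) - mapW σ (nf C₀ G₀) * mapW σ (nf C₀ F₀)
      = 1 := by
    have := congrArg (mapW σ) hrel₀
    rwa [map_sub, map_mul (mapW σ), map_mul (mapW σ), map_one] at this
  have hdF : ∀ i, degreeOf i F ≤ d := by
    intro i; fin_cases i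
    · show degreeOf 0 F ≤ d
      omega
    · show degreeOf 1 F ≤ d
      omega
  have hdG : ∀ i, degreeOf i G ≤ d := by
    intro i; fin_cases i
    · show degreeOf 0 G ≤ d
      omega
    · show degreeOf 1 G ≤ d
      omega
  have hsF' : F.support = F₁.support := by
    ext m; rw [mem_support_iff, mem_support_iff, hsF]
  have hsG' : G.support = G₁.support := by
    ext m; rw [mem_support_iff, mem_support_iff, hsG]
  obtain ⟨H, hH, hHd⟩ := modpS T hinv d D hD p hDp
    (mapW σ (nf C₀ F₀)) (mapW σ (nf C₀ G₀)) hrel₁ F₁ G₁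
    (by rw [mapW_nf, mapW_nf]) (by rw [mapW_nf, mapW_nf])
    (fun i => by rw [← degreeOf_congr i F F₁ hsF]; exact hdF i)
    (fun i => by rw [← degreeOf_congr i G G₁ hsG]; exact hdG i)
    (by rw [← hsF', ← hsG']; exact hTB) j
  -- the functional modulo p
  set l₀ : (Fin 2 →₀ ℕ) → C₀ := fun m => if h : m ∈ M then ⟨lm m, hmemC _ (hlS m h)⟩ else 0
    with hl₀
  have hl₀' : ∀ m ∈ M, ((l₀ m : C₀) : K) = lm m := by
    intro m hm
    rw [hl₀]
    simp only [hm, dif_pos]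
  let Lam : W (ZMod p) →ₗ[ZMod p] ZMod p :=
    { toFun := fun w => ∑ m ∈ M, cf m w * c (σ (l₀ m))
      map_add' := fun a b => by
        simp only [cf_add, add_mul, Finset.sum_add_distrib]
      map_smul' := fun r a => by
        simp only [cf_smul, RingHom.id_apply, smul_eq_mul, Finset.mul_sum, mul_assoc] }
  have hLam : ∀ w, Lam w = ∑ m ∈ M, cf m w * c (σ (l₀ m)) := fun _ => rfl
  have hLam0 : ∀ a ≤ D, ∀ b ≤ D, Lam (nf (ZMod p) F₁ ^ a * nf (ZMod p) G₁ ^ b) = 0 := by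
    intro a ha b hb
    have e1 : nf (ZMod p) F₁ ^ a * nf (ZMod p) G₁ ^ b
        = mapW c (mapW σ (nf C₀ F₀ ^ a * nf C₀ G₀ ^ b)) := by
      rw [map_mul, map_mul, map_pow, map_pow, map_pow, map_pow, mapW_nf, mapW_nf, mapW_nf, mapW_nf]
    rw [hLam, e1]
    have e2 : ∑ m ∈ M, cf m (nf C₀ F₀ ^ a * nf C₀ G₀ ^ b) * l₀ m = 0 := by
      apply hinj
      rw [map_sum, map_zero, ← hlam0 a ha b hb, hlamM _ (hMsub a ha b hb)]
      refine Finset.sum_congr rfl fun m hm => ?_
      rw [map_mul, ← cf_mapW, map_mul, map_pow, map_pow, mapW_nf, mapW_nf, hF₀, hG₀]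
      congr 1
      exact hl₀' m hm
    have e3 := congrArg (fun x => c (σ x)) e2
    simp only [map_sum, map_mul, map_zero] at e3
    rw [← e3]
    refine Finset.sum_congr rfl fun m _ => ?_
    rw [cf_mapW, cf_mapW]
  have h0 := ev_vanish _ _ Lam D hLam0 H hHd
  rw [hH, hLam] at h0
  have hjM : Finsupp.single j 1 ∈ M := by rw [hM]; exact Finset.mem_insert_self _ _
  rw [Finset.sum_eq_single_of_mem _ hjM] at h0
  · rw [cf_nf] at h0
    have e1 : coeff (Finsupp.single j 1) (X j : MvPolynomial (Fin 2) (ZMod p)) = 1 := by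
      rw [coeff_X, if_pos rfl]
    rw [e1, one_mul] at h0
    refine hnz (l₀ (Finsupp.single j 1)) ?_ ?_ h0
    · rw [hl₀' _ hjM]; exact hlS _ hjM
    · rw [hl₀' _ hjM]
      exact hlam1
  · intro m _ hm
    rw [cf_nf, coeff_X, if_neg (fun h => hm h.symm), zero_mul]

open Pool.Agent.H88R2.DC in
/-- The transfer theorem: a plane Jacobian theorem for the pairs whose supports satisfy `T`, where
`T` depends only on the weights of the supports for the weight functions of positive sum, implies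
the same theorem for the first Weyl algebra. -/
theorem transferS {K : Type} [Field K] [CharZero K]
    (T : Finset (Fin 2 →₀ ℕ) → Finset (Fin 2 →₀ ℕ) → Prop)
    (hinv : ∀ S S' S₁ S₁', Same S S₁ → Same S' S₁' → T S S' → T S₁ S₁') (hT : JConS T)
    (φ : A1 K →ₐ[K] A1 K) (a b : A1 K) (hab : a * b - b * a = 1)
    (F G : MvPolynomial (Fin 2) K) (hF : φ a = elt K F) (hG : φ b = elt K G)
    (h : T F.support G.support) : Function.Bijective φ := by
  obtain ⟨ψ, hx, hy⟩ := Pool.Agent.TH61.DX.ex_lift (K := K) a b hab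
  apply bij_of_comp φ ψ
  obtain ⟨hrel, h2⟩ := hAON K (φ.comp ψ) F G (by rw [AlgHom.comp_apply, hx, hF])
    (by rw [AlgHom.comp_apply, hy, hG])
  obtain ⟨h3, h4⟩ := finS T hinv hT K F G hrel h
  exact h2 h3 h4

end Pool.Agent.Y83.DC
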