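import Pool.Agent.W443.DX.All

/-! Leading monomials for weights of positive sum, and the uniform version of plane Jacobian
theorems for classes given by the supports. -/

set_option autoImplicit false

open MvPolynomial Pool.Agent.W443.DX

namespace Pool.Agent.Y83.DC

/-- the weight of an exponent -/
def wt (w : Fin 2 → ℤ) (m : Fin 2 →₀ ℕ) : ℤ := w 0 * (m 0 : ℤ) + w 1 * (m 1 : ℤ)

theorem wt_add (w : Fin 2 → ℤ) (m n : Fin 2 →₀ ℕ) : wt w (m + n) = wt w m + wt w n := by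
  unfold wt
  rw [Finsupp.add_apply, Finsupp.add_apply]
  push_cast
  ring

theorem wt_smul (w : Fin 2 → ℤ) (c : ℕ) (m : Fin 2 →₀ ℕ) : wt w (c • m) = c * wt w m := by
  unfold wt
  rw [Finsupp.smul_apply, Finsupp.smul_apply, smul_eq_mul, smul_eq_mul]
  push_cast
  ring

/-- `d` is the weight of the set `S` -/
def TopS (w : Fin 2 → ℤ) (d : ℤ) (S : Finset (Fin 2 →₀ ℕ)) : Prop :=
  (∃ m ∈ S, wt w m = d) ∧ ∀ m ∈ S, wt w m ≤ d

/-- `m₀` is the leading monomial for the weight `w` with ties broken by the first exponent -/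
def LMw {R : Type} [CommRing R] (w : Fin 2 → ℤ) (F : MvPolynomial (Fin 2) R) (m₀ : Fin 2 →₀ ℕ) :
    Prop :=
  coeff m₀ F ≠ 0 ∧ ∀ m, coeff m F ≠ 0 → wt w m < wt w m₀ ∨
    (wt w m = wt w m₀ ∧ (m 0 < m₀ 0 ∨ (m 0 = m₀ 0 ∧ m 1 ≤ m₀ 1)))

theorem LMw.top {R : Type} [CommRing R] {w : Fin 2 → ℤ} {F : MvPolynomial (Fin 2) R}
    {m₀ : Fin 2 →₀ ℕ} (h : LMw w F m₀) : TopS w (wt w m₀) F.support := by
  refine ⟨⟨m₀, mem_support_iff.2 h.1, rfl⟩, fun m hm => ?_⟩
  rcases h.2 m (mem_support_iff.1 hm) with h1 | h1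
  · exact h1.le
  · exact h1.1.le

theorem ext2 {m n : Fin 2 →₀ ℕ} (h0 : m 0 = n 0) (h1 : m 1 = n 1) : m = n := by
  ext i
  fin_cases i
  · exact h0
  · exact h1

theorem exists_LMw {R : Type} [CommRing R] (w : Fin 2 → ℤ) (F : MvPolynomial (Fin 2) R)
    (hF : F ≠ 0) : ∃ m₀, LMw w F m₀ := by
  classical
  have hne : F.support.Nonempty := by
    rw [Finset.nonempty_iff_ne_empty, Ne, support_eq_empty]; exact hF
  obtain ⟨m₁, hm₁, hmax₁⟩ := Finset.exists_max_image F.support (wt w) hne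
  obtain ⟨m₂, hm₂, hmax₂⟩ := Finset.exists_max_image (F.support.filter fun m => wt w m = wt w m₁)
    (fun m => m 0) ⟨m₁, Finset.mem_filter.2 ⟨hm₁, rfl⟩⟩
  obtain ⟨hm₂s, hm₂w⟩ := Finset.mem_filter.1 hm₂
  obtain ⟨m₃, hm₃, hmax₃⟩ := Finset.exists_max_image
    (F.support.filter fun m => wt w m = wt w m₁ ∧ m 0 = m₂ 0)
    (fun m => m 1) ⟨m₂, Finset.mem_filter.2 ⟨hm₂s, hm₂w, rfl⟩⟩
  obtain ⟨hm₃s, hm₃w, hm₃0⟩ := Finset.mem_filter.1 hm₃
  refine ⟨m₃, mem_support_iff.1 hm₃s, fun m hm => ?_⟩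
  have hms := mem_support_iff.2 hm
  rcases lt_or_eq_of_le (hmax₁ m hms) with h | h
  · left; rw [hm₃w]; exact h
  · right
    refine ⟨by rw [hm₃w]; exact h, ?_⟩
    rcases lt_or_eq_of_le (hmax₂ m (Finset.mem_filter.2 ⟨hms, h⟩)) with h' | h'
    · left; rw [hm₃0]; exact h'
    · right
      refine ⟨by rw [hm₃0]; exact h', ?_⟩
      exact hmax₃ m (Finset.mem_filter.2 ⟨hms, h, h'⟩)

theorem TopS.uniq {w : Fin 2 → ℤ} {d e : ℤ} {S : Finset (Fin 2 →₀ ℕ)} (h : TopS w d S)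
    (h' : TopS w e S) : d = e := by
  obtain ⟨⟨m, hm, hd⟩, h2⟩ := h
  obtain ⟨⟨n, hn, he⟩, h4⟩ := h'
  have h5 := h2 n hn
  have h6 := h4 m hm
  omega

/-- leading monomials are multiplicative -/
theorem lmw_mul {R : Type} [CommRing R] [IsDomain R] (w : Fin 2 → ℤ) (hw : 0 < w 0 + w 1)
    (F G : MvPolynomial (Fin 2) R) (a b : Fin 2 →₀ ℕ) (hF : LMw w F a) (hG : LMw w G b) :
    LMw w (op R F G) (a + b) := by
  obtain ⟨hF1, hF2⟩ := hF
  obtain ⟨hG1, hG2⟩ := hG
  have hdiff : ∀ m, coeff m (op R F G - F * G) ≠ 0 → wt w m < wt w (a + b) := by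
    intro m hm
    obtain ⟨m1, hm1, m2, hm2, r, hr, e0, e1⟩ := hOPM R F G m hm
    have a1 := hF2 m1 (mem_support_iff.mp hm1)
    have a2 := hG2 m2 (mem_support_iff.mp hm2)
    have b1 : wt w m1 ≤ wt w a := by rcases a1 with h | h <;> [exact h.le; exact h.1.le]
    have b2 : wt w m2 ≤ wt w b := by rcases a2 with h | h <;> [exact h.le; exact h.1.le]
    have e : wt w m + r * (w 0 + w 1) = wt w m1 + wt w m2 := by
      have e0' : (m 0 : ℤ) + r = m1 0 + m2 0 := by exact_mod_cast e0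
      have e1' : (m 1 : ℤ) + r = m1 1 + m2 1 := by exact_mod_cast e1
      unfold wt
      linear_combination w 0 * e0' + w 1 * e1'
    have hr' : (1 : ℤ) ≤ r := by exact_mod_cast hr
    have : 0 < (r : ℤ) * (w 0 + w 1) := by positivity
    rw [wt_add]
    linarith
  have hprod : coeff (a + b) (F * G) = coeff a F * coeff b G := by
    rw [coeff_mul]
    rw [Finset.sum_eq_single (a, b)]
    · intro x hx hne
      by_contra hcon
      have hc1 : coeff x.1 F ≠ 0 := left_ne_zero_of_mul hcon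
      have hc2 : coeff x.2 G ≠ 0 := right_ne_zero_of_mul hcon
      have hs := Finset.HasAntidiagonal.mem_antidiagonal.mp hx
      have s0 : x.1 0 + x.2 0 = a 0 + b 0 := by
        have := congrArg (fun f : Fin 2 →₀ ℕ => f 0) hs
        simpa only [Finsupp.add_apply] using this
      have s1 : x.1 1 + x.2 1 = a 1 + b 1 := by
        have := congrArg (fun f : Fin 2 →₀ ℕ => f 1) hs
        simpa only [Finsupp.add_apply] using this
      have sw : wt w x.1 + wt w x.2 = wt w a + wt w b := by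
        rw [← wt_add, ← wt_add, hs]
      have a1 := hF2 x.1 hc1
      have a2 := hG2 x.2 hc2
      apply hne
      have t1 : x.1 = a := ext2 (by omega) (by omega)
      have t2 : x.2 = b := ext2 (by omega) (by omega)
      exact Prod.ext t1 t2
    · intro hcon
      exfalso
      apply hcon
      rw [Finset.HasAntidiagonal.mem_antidiagonal]
  constructor
  · have h0 : coeff (a + b) (op R F G - F * G) = 0 := by
      by_contra hcon
      exact lt_irrefl _ (hdiff _ hcon)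
    rw [coeff_sub, sub_eq_zero] at h0
    rw [h0, hprod]
    exact mul_ne_zero hF1 hG1
  · intro m hm
    by_cases hd : coeff m (op R F G - F * G) = 0
    · rw [coeff_sub, sub_eq_zero] at hd
      rw [hd, coeff_mul] at hm
      obtain ⟨x, hx, hx2⟩ := Finset.exists_ne_zero_of_sum_ne_zero hm
      have hc1 : coeff x.1 F ≠ 0 := left_ne_zero_of_mul hx2
      have hc2 : coeff x.2 G ≠ 0 := right_ne_zero_of_mul hx2
      have hs := Finset.HasAntidiagonal.mem_antidiagonal.mp hx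
      have a1 := hF2 x.1 hc1
      have a2 := hG2 x.2 hc2
      rw [← hs, wt_add, wt_add, Finsupp.add_apply, Finsupp.add_apply, Finsupp.add_apply,
        Finsupp.add_apply]
      omega
    · left
      exact hdiff m hd

theorem lmw_one {R : Type} [CommRing R] [Nontrivial R] (w : Fin 2 → ℤ) :
    LMw w (1 : MvPolynomial (Fin 2) R) 0 := by
  classical
  refine ⟨by simp, fun m hm => ?_⟩
  rw [MvPolynomial.coeff_one] at hm
  by_cases h : (0 : Fin 2 →₀ ℕ) = m
  · subst h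
    exact Or.inr ⟨rfl, Or.inr ⟨rfl, le_rfl⟩⟩
  · rw [if_neg h] at hm
    exact absurd rfl hm

theorem lmw_pow {R : Type} [CommRing R] [IsDomain R] (w : Fin 2 → ℤ) (hw : 0 < w 0 + w 1)
    (F : MvPolynomial (Fin 2) R) (a : Fin 2 →₀ ℕ) (hF : LMw w F a) (n : ℕ) :
    ∃ G, nf R F ^ n = nf R G ∧ LMw w G (n • a) := by
  induction n with
  | zero =>
    refine ⟨1, ?_, ?_⟩
    · rw [pow_zero, nf_one]
    · rw [zero_smul]
      exact lmw_one w
  | succ n ih =>
    obtain ⟨G, hG, hL⟩ := ih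
    refine ⟨op R G F, ?_, ?_⟩
    · rw [pow_succ, hG, nf_mul]
    · rw [succ_nsmul]
      exact lmw_mul w hw G F _ _ hL hF

/-- the two sets have the same weights for every weight function of positive sum -/
def Same (S S' : Finset (Fin 2 →₀ ℕ)) : Prop :=
  ∀ w : Fin 2 → ℤ, 0 < w 0 + w 1 → ∀ d : ℤ, TopS w d S ↔ TopS w d S'

theorem Same.symm {S S' : Finset (Fin 2 →₀ ℕ)} (h : Same S S') : Same S' S :=
  fun w hw d => (h w hw d).symm

/-- the polynomial `f` with `P ^ p = f(x ^ p, y ^ p)` has the weights of `P` -/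
theorem same_of_pow (p : ℕ) [hpf : Fact p.Prime] (k : Type) [Field k] [CharP k p]
    (F f : MvPolynomial (Fin 2) k) (hF0 : F ≠ 0) (hpow : nf k F ^ p = nf k (expand p f)) :
    Same F.support f.support := by
  have hp : 0 < p := hpf.out.pos
  have hp' : p ≠ 0 := hp.ne'
  intro w hw
  obtain ⟨a, ha⟩ := exists_LMw w F hF0
  obtain ⟨G, hG, hL⟩ := lmw_pow w hw F a ha p
  rw [hpow] at hG
  have hG2 : expand p f = G := (nf k).injective hG
  have hGt := hL.top
  rw [← hG2, wt_smul, support_expand f hp'] at hGt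
  have hft : TopS w (wt w a) f.support := by
    obtain ⟨⟨m, hm, hmd⟩, h2⟩ := hGt
    obtain ⟨m', hm', rfl⟩ := Finset.mem_image.1 hm
    have hpz : (0 : ℤ) < p := by exact_mod_cast hp
    refine ⟨⟨m', hm', ?_⟩, fun n hn => ?_⟩
    · rw [wt_smul] at hmd
      exact mul_left_cancel₀ hpz.ne' hmd
    · have h3 := h2 (p • n) (Finset.mem_image_of_mem _ hn)
      rw [wt_smul] at h3
      exact le_of_mul_le_mul_left h3 hpz
  intro d
  constructor
  · intro h
    rw [ha.top.uniq h] at hft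
    exact hft
  · intro h
    have h4 := ha.top
    rw [hft.uniq h] at h4
    exact h4

/-! ### the uniform version -/

/-- The Jacobian conjecture for the pairs whose supports satisfy `T`. -/
def JConS (T : Finset (Fin 2 →₀ ℕ) → Finset (Fin 2 →₀ ℕ) → Prop) : Prop :=
  ∀ (k : Type) [Field k] [CharZero k] (f g : MvPolynomial (Fin 2) k),
    Jac f g = 1 → T f.support g.support → ∃ G₁ G₂, Inv f g G₁ G₂

open Pool.Agent.W319.DX.ULT

theorem const_supp (U : Ultrafilter ℕ) (t : ℕ → Finset (Fin 2 →₀ ℕ)) (d : ℕ)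
    (h : ∀ n, ∀ m ∈ t n, ∀ i, m i ≤ d) : ∃ b, ∀ᶠ n in (U : Filter ℕ), t n = b := by
  classical
  set B : Finset (Fin 2 →₀ ℕ) :=
    Finset.Iic (Finsupp.equivFunOnFinite.symm fun _ : Fin 2 => d) with hB
  have h0 : ∀ n, t n ∈ (B.powerset : Set (Finset (Fin 2 →₀ ℕ))) := by
    intro n
    rw [Finset.mem_coe, Finset.mem_powerset]
    intro m hm
    rw [hB, Finset.mem_Iic]
    intro i
    exact h n m hm i
  have h1 : (⋃ b ∈ (B.powerset : Set (Finset (Fin 2 →₀ ℕ))), {n | t n = b}) ∈ U := by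
    have h2 : (⋃ b ∈ (B.powerset : Set (Finset (Fin 2 →₀ ℕ))), {n | t n = b}) = Set.univ := by
      ext n
      simp only [Set.mem_iUnion, Set.mem_setOf_eq, Set.mem_univ, iff_true]
      exact ⟨t n, h0 n, rfl⟩
    rw [h2]
    exact Filter.univ_mem
  obtain ⟨b, _, hb⟩ := (Ultrafilter.finite_biUnion_mem_iff (Finset.finite_toSet B.powerset)).1 h1
  exact ⟨b, hb⟩

theorem ultS (T : Finset (Fin 2 →₀ ℕ) → Finset (Fin 2 →₀ ℕ) → Prop) (hT : JConS T) (d : ℕ) :
    ∃ D : ℕ, ∀ p : ℕ, D ≤ p → ∀ [Fact p.Prime]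
    (f g : MvPolynomial (Fin 2) (ZMod p)),
    (∀ i, degreeOf i f ≤ d) → (∀ i, degreeOf i g ≤ d) →
    Jac f g = 1 → T f.support g.support →
    ∃ G₁ G₂, Inv f g G₁ G₂ ∧ (∀ i, degreeOf i G₁ ≤ D) ∧ (∀ i, degreeOf i G₂ ≤ D) := by
  by_contra hcon
  have h : ∀ D : ℕ, ∃ (p : ℕ) (_ : Fact p.Prime) (f g : MvPolynomial (Fin 2) (ZMod p)),
      D ≤ p ∧ (∀ i, degreeOf i f ≤ d) ∧ (∀ i, degreeOf i g ≤ d) ∧
      Jac f g = 1 ∧ T f.support g.support ∧
      ∀ G₁ G₂, Inv f g G₁ G₂ → (∀ i, degreeOf i G₁ ≤ D) → (∀ i, degreeOf i G₂ ≤ D) → False := by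
    intro D
    by_contra hc
    apply hcon
    refine ⟨D, fun p hp hF f g h1 h2 h3 h6 => ?_⟩
    by_contra h7
    apply hc
    exact ⟨p, hF, f, g, hp, h1, h2, h3, h6,
      fun G₁ G₂ h8 h9 h10 => h7 ⟨G₁, G₂, h8, h9, h10⟩⟩
  choose p hF f g hp hf hg hJ hTT hno using h
  let U : Ultrafilter ℕ := Filter.hyperfilter ℕ
  have hU : (U : Filter ℕ) ≤ Filter.atTop := by
    rw [← Nat.cofinite_eq_atTop]
    exact Filter.hyperfilter_le_cofinite
  obtain ⟨F, hFn⟩ := lift_n p f d hf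
  obtain ⟨G, hGn⟩ := lift_n p g d hg
  obtain ⟨b, hb⟩ := const_supp U (fun n => (f n).support) d
    (fun n m hm i => (monomial_le_degreeOf i hm).trans (hf n i))
  obtain ⟨b', hb'⟩ := const_supp U (fun n => (g n).support) d
    (fun n m hm i => (monomial_le_degreeOf i hm).trans (hg n i))
  have hmax : (MM p U).IsMaximal := MM_max p U
  letI : Field (RR p ⧸ MM p U) := Ideal.Quotient.field _
  have : CharZero (RR p ⧸ MM p U) := by
    refine charZero_of_inj_zero fun m hm => ?_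
    by_contra hm0
    have h1 : ((m : RR p)) ∈ MM p U := by
      rw [← Ideal.Quotient.eq_zero_iff_mem, map_natCast]
      exact hm
    rw [mem_MM] at h1
    have h2 : ∀ᶠ n in (U : Filter ℕ), m < n := hU (Filter.eventually_gt_atTop m)
    obtain ⟨n, hn1, hn2⟩ := (h1.and h2).exists
    have h3 : ((m : ℕ) : ZMod (p n)) = 0 := hn1
    rw [ZMod.natCast_eq_zero_iff] at h3
    have h4 := Nat.le_of_dvd (Nat.pos_of_ne_zero hm0) h3
    have h5 := hp n
    omega
  have hsupp : ∀ (f : ∀ n, MvPolynomial (Fin 2) (ZMod (p n))) (F : MvPolynomial (Fin 2) (RR p))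
      (b : Finset (Fin 2 →₀ ℕ)), (∀ n, map (evn p n) F = f n) →
      (∀ᶠ n in (U : Filter ℕ), (f n).support = b) →
      (map (Ideal.Quotient.mk (MM p U)) F).support = b := by
    intro f F b hFn hb
    have hco : ∀ m n, (coeff m F) n = coeff m (f n) := by
      intro m n
      rw [← hFn n, coeff_map]
      rfl
    ext m
    rw [mem_support_iff, coeff_map]
    constructor
    · intro hm
      have h0 : ¬ ∀ᶠ n in (U : Filter ℕ), (coeff m F) n = 0 := by
        intro h1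
        exact hm (Ideal.Quotient.eq_zero_iff_mem.2 h1)
      have h1 : ∀ᶠ n in (U : Filter ℕ), ¬ (coeff m F) n = 0 := Ultrafilter.eventually_not.2 h0
      obtain ⟨n, h1, h2⟩ := (h1.and hb).exists
      rw [hco] at h1
      rw [← h2, mem_support_iff]
      exact h1
    · intro hm h0
      rw [Ideal.Quotient.eq_zero_iff_mem, mem_MM] at h0
      obtain ⟨n, h1, h2⟩ := (h0.and hb).exists
      rw [hco] at h1
      rw [← h2, mem_support_iff] at hm
      exact hm h1
  have hJac : Jac (map (Ideal.Quotient.mk (MM p U)) F) (map (Ideal.Quotient.mk (MM p U)) G) = 1 := by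
    rw [jac_map]
    have h1 : Jac F G = 1 := by
      apply ext_n
      intro n
      rw [← jac_map, hFn, hGn, hJ, map_one]
    rw [h1, map_one]
  have hTb : T b b' := by
    obtain ⟨n, h1, h2⟩ := (hb.and hb').exists
    have h5 := hTT n
    rwa [h1, h2] at h5
  obtain ⟨G₁, G₂, hI⟩ := hT (RR p ⧸ MM p U) (map (Ideal.Quotient.mk (MM p U)) F)
    (map (Ideal.Quotient.mk (MM p U)) G) hJac (by rw [hsupp f F b hFn hb, hsupp g G b' hGn hb']
                                                  exact hTb)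
  obtain ⟨H₁, rfl⟩ := MvPolynomial.map_surjective (Ideal.Quotient.mk (MM p U))
    Ideal.Quotient.mk_surjective G₁
  obtain ⟨H₂, rfl⟩ := MvPolynomial.map_surjective (Ideal.Quotient.mk (MM p U))
    Ideal.Quotient.mk_surjective G₂
  obtain ⟨i1, i2, i3, i4⟩ := hI
  rw [aeval_map', ← map_X (Ideal.Quotient.mk (MM p U))] at i1 i2 i3 i4
  have e1 := ev_eq p U _ _ i1
  have e2 := ev_eq p U _ _ i2
  have e3 := ev_eq p U _ _ i3
  have e4 := ev_eq p U _ _ i4
  have hD : ∀ᶠ n in (U : Filter ℕ), ∀ i, degreeOf i H₁ ≤ n ∧ degreeOf i H₂ ≤ n := by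
    rw [Filter.eventually_all]
    intro i
    filter_upwards [hU (Filter.eventually_ge_atTop (degreeOf i H₁)),
      hU (Filter.eventually_ge_atTop (degreeOf i H₂))] with n h1 h2
    exact ⟨h1, h2⟩
  obtain ⟨n, ⟨⟨⟨h1, h2⟩, h3⟩, h4⟩, h5⟩ := ((((e1.and e2).and e3).and e4).and hD).exists
  rw [← aeval_map', map_X] at h1 h2 h3 h4
  rw [hFn, hGn] at h1 h2
  rw [hFn] at h3
  rw [hGn] at h4
  exact hno n (map (evn p n) H₁) (map (evn p n) H₂) ⟨h1, h2, h3, h4⟩
    (fun i => (deg_map _ _ _).trans (h5 i).1) (fun i => (deg_map _ _ _).trans (h5 i).2)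

end Pool.Agent.Y83.DC
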